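import Mathlib

set_option autoImplicit false

namespace Pool.Agent.Results.MP_5c2e51_co.LRTDisplayed

/-- A rooted phylogenetic tree with leaf set `L`, given by its hierarchy of clusters: the vertices
are the clusters (leaf sets below a vertex), the root is the whole leaf set, the leaves are the
singletons, and `v ⪯ u` is `v ⊆ u`. Any two clusters are nested or disjoint. -/
structure PTree (L : Type) where
  /-- the vertices, as clusters -/
  clusters : Set (Set L)
  univ_mem : Set.univ ∈ clusters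
  singleton_mem : ∀ x : L, {x} ∈ clusters
  nonempty : ∀ A ∈ clusters, A.Nonempty
  laminar : ∀ A ∈ clusters, ∀ B ∈ clusters, A ⊆ B ∨ B ⊆ A ∨ Disjoint A B

/-- The least common ancestor of two leaves: the smallest cluster containing both. -/
def PTree.lca {L : Type} (T : PTree L) (x y : L) : Set L :=
  ⋂₀ {A | A ∈ T.clusters ∧ x ∈ A ∧ y ∈ A}

/-- A truncation map assigns to each leaf `x` and each color `s ≠ σ x` a vertex above `x`. -/
def IsTruncation {L S : Type} (T : PTree L) (σ : L → S) (u : L → S → Set L) : Prop :=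
  ∀ x s, s ≠ σ x → u x s ∈ T.clusters ∧ x ∈ u x s

/-- The arcs of `qBMG(T, σ, u)`. -/
def qBMG {L S : Type} (T : PTree L) (σ : L → S) (u : L → S → Set L) (x y : L) : Prop :=
  σ x ≠ σ y ∧ (¬ ∃ y', σ y' = σ y ∧ T.lca x y' ⊂ T.lca x y) ∧ T.lca x y ⊆ u x (σ y)

/-- The arcs of the best match graph `BMG(T, σ)`, i.e. the truncation map is constantly the
root. -/
def BMG {L S : Type} (T : PTree L) (σ : L → S) : L → L → Prop :=
  qBMG T σ (fun _ _ => Set.univ)

/-- `T` is a least resolved tree of the best match graph `G`: it explains `G`, and no tree obtained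
by contracting inner edges (that is, with strictly fewer clusters) explains `G`. -/
def IsBMGLRT {L S : Type} (G : L → L → Prop) (σ : L → S) (T : PTree L) : Prop :=
  (∀ x y, G x y ↔ BMG T σ x y) ∧
    ∀ T' : PTree L, T'.clusters ⊂ T.clusters → ¬ ∀ x y, G x y ↔ BMG T' σ x y

/-- The tree `T` on `L` displays the tree `T'` on `W ⊆ L`: every cluster of `T'` is a cluster of
the restriction of `T` to `W`, i.e. the trace on `W` of a cluster of `T`. -/
def Displays {L : Type} (T : PTree L) (W : Set L) (T' : PTree W) : Prop :=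
  ∀ A ∈ T'.clusters, ∃ B ∈ T.clusters, A = Subtype.val ⁻¹' B

section Basic

variable {L S : Type} [Finite L]

theorem chain (T : PTree L) {A B : Set L} (hA : A ∈ T.clusters) (hB : B ∈ T.clusters) {x : L}
    (hxA : x ∈ A) (hxB : x ∈ B) : A ⊆ B ∨ B ⊆ A := by
  rcases T.laminar A hA B hB with h | h | h
  · exact Or.inl h
  · exact Or.inr h
  · exact absurd hxB (Set.disjoint_left.1 h hxA)

theorem lca_mem (T : PTree L) (x y : L) : T.lca x y ∈ T.clusters := by
  have hne : {A | A ∈ T.clusters ∧ x ∈ A ∧ y ∈ A}.Nonempty :=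
    ⟨Set.univ, T.univ_mem, Set.mem_univ _, Set.mem_univ _⟩
  obtain ⟨M, hM⟩ := (Set.toFinite {A | A ∈ T.clusters ∧ x ∈ A ∧ y ∈ A}).exists_minimal hne
  have h : T.lca x y = M := by
    apply Set.Subset.antisymm
    · exact Set.sInter_subset_of_mem hM.1
    · intro z hz
      rw [PTree.lca, Set.mem_sInter]
      intro A hA
      rcases chain T hA.1 hM.1.1 hA.2.1 hM.1.2.1 with h | h
      · exact hM.2 hA h hz
      · exact h hz
  rw [h]
  exact hM.1.1

theorem left_mem_lca (T : PTree L) (x y : L) : x ∈ T.lca x y := by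
  rw [PTree.lca, Set.mem_sInter]
  exact fun A hA => hA.2.1

theorem right_mem_lca (T : PTree L) (x y : L) : y ∈ T.lca x y := by
  rw [PTree.lca, Set.mem_sInter]
  exact fun A hA => hA.2.2

theorem lca_subset (T : PTree L) {x y : L} {A : Set L} (hA : A ∈ T.clusters) (hx : x ∈ A)
    (hy : y ∈ A) : T.lca x y ⊆ A := Set.sInter_subset_of_mem ⟨hA, hx, hy⟩

/-- Best matches, in terms of clusters. -/
def Best (T : PTree L) (σ : L → S) (x y : L) : Prop :=
  σ x ≠ σ y ∧ ∀ A ∈ T.clusters, x ∈ A → (∃ y' ∈ A, σ y' = σ y) → y ∈ A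

theorem best_iff (T : PTree L) (σ : L → S) (x y : L) :
    Best T σ x y ↔ σ x ≠ σ y ∧ ¬ ∃ y', σ y' = σ y ∧ T.lca x y' ⊂ T.lca x y := by
  constructor
  · rintro ⟨h1, h2⟩
    refine ⟨h1, ?_⟩
    rintro ⟨y', hy', hlt⟩
    have h3 := h2 _ (lca_mem T x y') (left_mem_lca T x y') ⟨y', right_mem_lca T x y', hy'⟩
    exact hlt.2 (lca_subset T (lca_mem T x y') (left_mem_lca T x y') h3)
  · rintro ⟨h1, h2⟩
    refine ⟨h1, ?_⟩
    rintro A hA hxA ⟨y', hy'A, hy'⟩
    by_contra hyA
    apply h2
    refine ⟨y', hy', ?_, ?_⟩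
    · rcases chain T (lca_mem T x y') (lca_mem T x y) (left_mem_lca T x y')
        (left_mem_lca T x y) with h | h
      · exact h
      · exact absurd (lca_subset T hA hxA hy'A (h (right_mem_lca T x y))) hyA
    · intro h
      exact hyA (lca_subset T hA hxA hy'A (h (right_mem_lca T x y)))

theorem qBMG_iff (T : PTree L) (σ : L → S) (u : L → S → Set L) (x y : L) :
    qBMG T σ u x y ↔ Best T σ x y ∧ T.lca x y ⊆ u x (σ y) := by
  unfold qBMG
  rw [best_iff, and_assoc]

theorem BMG_iff (T : PTree L) (σ : L → S) (x y : L) : BMG T σ x y ↔ Best T σ x y := by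
  unfold BMG
  rw [qBMG_iff]
  exact and_iff_left (Set.subset_univ _)

/-- A best match of every color exists. -/
theorem exists_best (T : PTree L) (σ : L → S) (z y0 : L) (hz : σ z ≠ σ y0) :
    ∃ w, σ w = σ y0 ∧ Best T σ z w := by
  have hne : {A | A ∈ T.clusters ∧ z ∈ A ∧ ∃ y' ∈ A, σ y' = σ y0}.Nonempty :=
    ⟨Set.univ, T.univ_mem, Set.mem_univ _, y0, Set.mem_univ _, rfl⟩
  obtain ⟨M, hM⟩ := (Set.toFinite _).exists_minimal hne
  obtain ⟨⟨hMc, hzM, w, hwM, hw⟩, hmin⟩ := hM
  refine ⟨w, hw, by rw [hw]; exact hz, ?_⟩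
  intro A hA hzA hAs
  rw [hw] at hAs
  rcases chain T hMc hA hzM hzA with h | h
  · exact h hwM
  · exact hmin ⟨hA, hzA, hAs⟩ h hwM

/-- The main lemma: the clusters of a least resolved tree of a best match graph are clusters of
every tree explaining it. -/
theorem key (T T' : PTree L) (σ : L → S) (hT : IsBMGLRT (BMG T σ) σ T)
    (hTT' : ∀ x y, Best T σ x y ↔ Best T' σ x y) : T.clusters ⊆ T'.clusters := by
  intro C hC
  by_cases hCu : C = Set.univ
  · rw [hCu]; exact T'.univ_mem
  by_cases hCs : ∃ x, C = {x}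
  · obtain ⟨x, rfl⟩ := hCs
    exact T'.singleton_mem x
  -- remove `C`
  let T0 : PTree L :=
    { clusters := T.clusters \ {C}
      univ_mem := ⟨T.univ_mem, fun h => hCu h.symm⟩
      singleton_mem := fun x => ⟨T.singleton_mem x, fun h => hCs ⟨x, h.symm⟩⟩
      nonempty := fun A hA => T.nonempty A hA.1
      laminar := fun A hA B hB => T.laminar A hA.1 B hB.1 }
  have hlt : T0.clusters ⊂ T.clusters := by
    refine ⟨Set.sdiff_subset, ?_⟩
    intro h
    exact (h hC).2 rfl
  have hdiff := hT.2 T0 hlt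
  have hxy : ∃ x y, Best T0 σ x y ∧ ¬ Best T σ x y := by
    by_contra hcon
    push Not at hcon
    apply hdiff
    intro x y
    rw [BMG_iff, BMG_iff]
    constructor
    · rintro ⟨h1, h2⟩
      exact ⟨h1, fun A hA => h2 A hA.1⟩
    · exact hcon x y
  obtain ⟨x, y, hb0, hb⟩ := hxy
  have hne : σ x ≠ σ y := hb0.1
  -- `C` is the minimal cluster containing `x` and meeting the color of `y`
  have hC' : x ∈ C ∧ (∃ y' ∈ C, σ y' = σ y) ∧ y ∉ C := by
    unfold Best at hb
    push Not at hb
    obtain ⟨A, hA, hxA, hAs, hyA⟩ := hb hne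
    have hAC : A = C := by
      by_contra h
      exact hyA (hb0.2 A ⟨hA, h⟩ hxA hAs)
    rw [hAC] at hxA hAs hyA
    exact ⟨hxA, hAs, hyA⟩
  obtain ⟨hxC, hCy, hyC⟩ := hC'
  have hbig : ∀ A ∈ T.clusters, A ≠ C → x ∈ A → (∃ y' ∈ A, σ y' = σ y) → y ∈ A :=
    fun A hA hAC hxA hAs => hb0.2 A ⟨hA, hAC⟩ hxA hAs
  have hbestC : ∀ w, w ∈ C → σ w = σ y → Best T σ x w := by
    intro w hw hws
    refine ⟨by rw [hws]; exact hne, ?_⟩
    intro A hA hxA hAs
    rw [hws] at hAs
    by_cases hAC : A = C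
    · rw [hAC]; exact hw
    · have hyA := hbig A hA hAC hxA hAs
      rcases chain T hA hC hxA hxC with h | h
      · exact absurd (h hyA) hyC
      · exact h hw
  have hinC : ∀ z, z ∈ C → ∀ w, σ w = σ y → Best T σ z w → w ∈ C := by
    intro z hz w hws hbw
    exact hbw.2 C hC hz (by rw [hws]; exact hCy)
  -- the two clusters of `T'`
  have hne1 : {D | D ∈ T'.clusters ∧ x ∈ D ∧ ∀ w ∈ D, σ w = σ y → w ∈ C}.Nonempty := by
    refine ⟨{x}, T'.singleton_mem x, rfl, ?_⟩
    intro w hw hws
    rw [Set.mem_singleton_iff] at hw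
    subst hw
    exact absurd hws hne
  obtain ⟨D1, hD1, hmax⟩ := (Set.toFinite _).exists_maximal hne1
  have hne2 : {D | D ∈ T'.clusters ∧ x ∈ D ∧ ∃ w ∈ D, σ w = σ y ∧ w ∉ C}.Nonempty :=
    ⟨Set.univ, T'.univ_mem, Set.mem_univ _, y, Set.mem_univ _, rfl, hyC⟩
  obtain ⟨D2, hD2, hmin⟩ := (Set.toFinite _).exists_minimal hne2
  obtain ⟨hD1c, hxD1, hD1s⟩ := hD1
  obtain ⟨hD2c, hxD2, y2, hy2D, hy2s, hy2C⟩ := hD2
  have hdich : ∀ A ∈ T'.clusters, x ∈ A → A ⊆ D1 ∨ D2 ⊆ A := by
    intro A hA hxA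
    by_cases hAs : ∀ w ∈ A, σ w = σ y → w ∈ C
    · left
      rcases chain T' hA hD1c hxA hxD1 with h | h
      · exact h
      · exact hmax ⟨hA, hxA, hAs⟩ h
    · right
      push Not at hAs
      obtain ⟨w, hwA, hws, hwC⟩ := hAs
      rcases chain T' hA hD2c hxA hxD2 with h | h
      · exact hmin ⟨hA, hxA, w, hwA, hws, hwC⟩ h
      · exact h
  have hD1meets : ∃ w ∈ D1, σ w = σ y := by
    by_contra hcon
    push Not at hcon
    have hb2 : Best T' σ x y2 := by
      refine ⟨by rw [hy2s]; exact hne, ?_⟩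
      rintro A hA hxA ⟨w, hwA, hws⟩
      rcases hdich A hA hxA with h | h
      · exact absurd (hws.trans hy2s) (hcon w (h hwA))
      · exact h hy2D
    exact hy2C (hinC x hxC y2 hy2s ((hTT' x y2).2 hb2))
  have hCD : ∀ w, w ∈ C → σ w = σ y → w ∈ D1 := by
    intro w hw hws
    have := (hTT' x w).1 (hbestC w hw hws)
    exact this.2 D1 hD1c hxD1 (by rw [hws]; exact hD1meets)
  have hCD1 : C = D1 := by
    apply Set.Subset.antisymm
    · intro z hz
      by_contra hzD
      by_cases hzs : σ z = σ y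
      · exact hzD (hCD z hz hzs)
      · obtain ⟨w, hws, hbw⟩ := exists_best T σ z y hzs
        have hwC := hinC z hz w hws hbw
        have hwD := hCD w hwC hws
        have hbw' := (hTT' z w).1 hbw
        have hb2 : Best T' σ z y2 := by
          refine ⟨by rw [hy2s]; exact hzs, ?_⟩
          intro A hA hzA hAs
          have hwA : w ∈ A := hbw'.2 A hA hzA (by rw [hws, ← hy2s]; exact hAs)
          have hDA : D1 ⊆ A := by
            rcases chain T' hD1c hA hwD hwA with h | h
            · exact h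
            · exact absurd (h hzA) hzD
          rcases hdich A hA (hDA hxD1) with h | h
          · exact absurd (h hzA) hzD
          · exact h hy2D
        exact hy2C (hinC z hz y2 hy2s ((hTT' z y2).2 hb2))
    · intro z hz
      by_contra hzC
      by_cases hzs : σ z = σ y
      · exact hzC (hD1s z hz hzs)
      · obtain ⟨w, hws, hbw⟩ := exists_best T' σ z y hzs
        have hwD : w ∈ D1 := hbw.2 D1 hD1c hz (by rw [hws]; exact hD1meets)
        have hwC := hD1s w hwD hws
        have hbw' := (hTT' z w).2 hbw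
        have hb2 : Best T σ z y := by
          refine ⟨hzs, ?_⟩
          intro A hA hzA hAs
          have hwA : w ∈ A := hbw'.2 A hA hzA (by rw [hws]; exact hAs)
          have hCA : C ⊆ A := by
            rcases chain T hC hA hwC hwA with h | h
            · exact h
            · exact absurd (h hzA) hzC
          have hAC : A ≠ C := fun h => hzC (h ▸ hzA)
          exact hbig A hA hAC (hCA hxC) hAs
        have hyD : y ∈ D1 := ((hTT' z y).1 hb2).2 D1 hD1c hz hD1meets
        exact hyC (hD1s y hyD rfl)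
  rw [hCD1]
  exact hD1c

end Basic

/-- Let `(T, σ, u)` explain the quasi-best match graph `(G, σ)`, and let `W` be any set of
vertices such that the induced subgraph on `W` is a best match graph, with least resolved tree
`T_W`. Then `T` displays `T_W`. -/
theorem result (L S : Type) [Finite L] (σ : L → S) (G : L → L → Prop) (T : PTree L)
    (u : L → S → Set L) (_hu : IsTruncation T σ u) (hG : ∀ x y, G x y ↔ qBMG T σ u x y)
    (W : Set L) (TW : PTree W)
    (hW : IsBMGLRT (fun x y : W => G x y) (fun x : W => σ x) TW) : Displays T W TW := by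
  classical
  have hWne : W.Nonempty := by
    obtain ⟨x, -⟩ := TW.nonempty _ TW.univ_mem
    exact ⟨x.1, x.2⟩
  -- the restriction
  let R : PTree W :=
    { clusters := {A | A.Nonempty ∧ ∃ B ∈ T.clusters, A = Subtype.val ⁻¹' B}
      univ_mem := by
        obtain ⟨x, hx⟩ := hWne
        exact ⟨⟨⟨x, hx⟩, Set.mem_univ _⟩, Set.univ, T.univ_mem, rfl⟩
      singleton_mem := by
        intro x
        refine ⟨⟨x, rfl⟩, {x.1}, T.singleton_mem x.1, ?_⟩
        ext z
        rw [Set.mem_singleton_iff, Set.mem_preimage, Set.mem_singleton_iff]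
        exact ⟨fun h => congrArg Subtype.val h, fun h => Subtype.ext h⟩
      nonempty := fun A hA => hA.1
      laminar := by
        rintro A ⟨-, A', hA', rfl⟩ B ⟨-, B', hB', rfl⟩
        rcases T.laminar A' hA' B' hB' with h | h | h
        · exact Or.inl (Set.preimage_mono h)
        · exact Or.inr (Or.inl (Set.preimage_mono h))
        · exact Or.inr (Or.inr (Disjoint.preimage _ h)) }
  have hsame : ∀ x y : W, Best TW (fun x : W => σ x) x y ↔ Best R (fun x : W => σ x) x y := by
    intro x y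
    have e1 : ∀ a b : W, Best TW (fun x : W => σ x) a b ↔
        (Best T σ a b ∧ T.lca a b ⊆ u a (σ b)) := by
      intro a b
      have h1 : (G a b ↔ BMG TW (fun x : W => σ x) a b) := hW.1 a b
      rw [← BMG_iff, ← h1, hG, qBMG_iff]
    constructor
    · intro h
      refine ⟨h.1, ?_⟩
      have h2 := ((e1 x y).1 h).1
      rintro A ⟨-, B, hB, rfl⟩ hxA ⟨y', hy'A, hy'⟩
      exact h2.2 B hB hxA ⟨y'.1, hy'A, hy'⟩
    · intro h
      obtain ⟨w, hws, hbw⟩ := exists_best TW (fun x : W => σ x) x y h.1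
      obtain ⟨h3, h4⟩ := (e1 x w).1 hbw
      have hws' : σ w.1 = σ y.1 := hws
      have h5 : Best T σ x y := by
        refine ⟨h.1, ?_⟩
        intro A hA hxA hAs
        have hwA : w.1 ∈ A := h3.2 A hA hxA (by rw [hws']; exact hAs)
        exact h.2 (Subtype.val ⁻¹' A) ⟨⟨x, hxA⟩, A, hA, rfl⟩ hxA ⟨w, hwA, hws⟩
      rw [e1]
      refine ⟨h5, ?_⟩
      have h6 : y.1 ∈ T.lca x w := h5.2 _ (lca_mem T _ _) (left_mem_lca T _ _)
        ⟨w.1, right_mem_lca T _ _, hws'⟩
      have h7 : T.lca x y ⊆ T.lca x w := lca_subset T (lca_mem T _ _) (left_mem_lca T _ _) h6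
      rw [hws'] at h4
      exact h7.trans h4
  have hLRT : IsBMGLRT (BMG TW (fun x : W => σ x)) (fun x : W => σ x) TW := by
    refine ⟨fun x y => Iff.rfl, ?_⟩
    intro T' hT' hcon
    exact hW.2 T' hT' (fun x y => (hW.1 x y).trans (hcon x y))
  intro A hA
  exact (key TW R _ hLRT hsame hA).2

end Pool.Agent.Results.MP_5c2e51_co.LRTDisplayed
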